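import Pool.Agent.Lib.MP_7b06ad_gt.KOmega

set_option autoImplicit false

universe u

namespace Pool.Agent.Results.MP_7b06ad_gt.SpLevels

open Pool.Agent.Lib.MP_7b06ad_gt

/-- For metrizable `X` with free topological vector space `(V, i)`: if `sp_m(X)` is a k-space for
some `m ≥ 2` (for example `m = 4`), then every `sp_n(X)` is a k-space. -/
theorem result {X V : Type u} [TopologicalSpace X] [TopologicalSpace.MetrizableSpace X]
    [AddCommGroup V] [Module ℝ V] [TopologicalSpace V] [IsTopologicalAddGroup V]
    [ContinuousSMul ℝ V] [T2Space V] (i : X → V) (hi : IsFreeTVS i) (m : ℕ) (hm : 2 ≤ m)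
    (hk : CompactlyCoherentSpace (sp i m)) (n : ℕ) : CompactlyCoherentSpace (sp i n) :=
  main hi hm hk n

end Pool.Agent.Results.MP_7b06ad_gt.SpLevels
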